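import Pool.Agent.Helper68.KP.StR

/-!
# Project KP, chapter R: module BDW (boundedness)
-/

set_option autoImplicit false

namespace Pool.Agent.Helper91.KP

open Pool.Agent.Helper52.KP Pool.Agent.Helper68.KP Filter Topology

section aux

variable {A : Type} [CommRing A] [Algebra ℂ A] {E : ℕ → Submodule ℂ A}

lemma bdw_mul {W : ∀ k, E k →ₗ[ℂ] E k} (hW : DD E W) {i j : ℕ} (p : E i) (q : E j) (u v : ℝ)
    (hp : W i p = (u : ℂ) • p) (hq : W j q = (v : ℂ) • q) (g : E (i + j))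
    (hg : (g : A) = p * q) : W (i + j) g = ((u + v : ℝ) : ℂ) • g := by
  apply Subtype.ext
  rw [hW i j p q g hg, hp, hq]
  rw [Submodule.coe_smul, Submodule.coe_smul, Submodule.coe_smul, smul_mul_assoc, mul_smul_comm,
    ← add_smul, hg]
  push_cast
  rfl

lemma bdw_pow (h0 : E 0 = Submodule.span ℂ {1})
    (hm : ∀ k k' f f', f ∈ E k → f' ∈ E k' → f * f' ∈ E (k + k'))
    {W : ∀ k, E k →ₗ[ℂ] E k} (hW : DD E W) (e : E 1) (w : ℝ) (he : W 1 e = (w : ℂ) • e) :
    ∀ i : ℕ, ∃ p : E i, (p : A) = (e : A) ^ i ∧ W i p = ((i * w : ℝ) : ℂ) • p := by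
  intro i
  induction i with
  | zero =>
    have h1 : (1 : A) ∈ E 0 := by
      rw [h0]; exact Submodule.mem_span_singleton_self 1
    refine ⟨⟨1, h1⟩, by simp, ?_⟩
    have h2 := hW 0 0 ⟨1, h1⟩ ⟨1, h1⟩ ⟨1, h1⟩ (by simp)
    have h3 : (W 0 ⟨1, h1⟩ : A) = (W 0 ⟨1, h1⟩ : A) + (W 0 ⟨1, h1⟩ : A) := by
      have h4 : (W (0 + 0) ⟨1, h1⟩ : A) = (W 0 ⟨1, h1⟩ : A) := rfl
      rw [h4] at h2
      simpa using h2
    have h5 : (W 0 ⟨1, h1⟩ : A) = 0 := by
      have := sub_eq_zero.2 h3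
      simpa using this
    apply Subtype.ext
    rw [h5]
    simp
  | succ i ih =>
    obtain ⟨p, hp, hpw⟩ := ih
    refine ⟨⟨p * e, hm i 1 p e p.2 e.2⟩, ?_, ?_⟩
    · change (p : A) * e = _
      rw [hp, pow_succ]
    · have := bdw_mul hW p e _ w hpw he ⟨p * e, hm i 1 p e p.2 e.2⟩ rfl
      rw [this]
      congr 2
      push_cast
      ring

lemma bdw_span {V : Submodule ℂ A} {n : ℕ} (T : V →ₗ[ℂ] V) (e : Fin n → V) (w : Fin n → ℝ)
    (h1 : ∀ j, T (e j) = (w j : ℂ) • e j) (h2 : LinearIndependent ℂ e)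
    (h3 : Submodule.span ℂ (Set.range e) = ⊤) (v : V) (u : ℝ) (hv : T v = (u : ℂ) • v) :
    ∃ c : Fin n → ℂ, ∑ j, c j • e j = v ∧ ∀ j, w j ≠ u → c j = 0 := by
  have hmem : v ∈ Submodule.span ℂ (Set.range e) := by rw [h3]; exact Submodule.mem_top
  obtain ⟨c, hc⟩ := (Submodule.mem_span_range_iff_exists_fun ℂ).1 hmem
  refine ⟨c, hc, ?_⟩
  have h4 : ∑ j, (c j * ((w j : ℂ) - u)) • e j = 0 := by
    have h5 : T v = ∑ j, (c j * (w j : ℂ)) • e j := by
      rw [← hc, map_sum]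
      refine Finset.sum_congr rfl fun j _ => ?_
      rw [map_smul, h1, smul_smul]
    have h6 : (u : ℂ) • v = ∑ j, (c j * (u : ℂ)) • e j := by
      rw [← hc, Finset.smul_sum]
      refine Finset.sum_congr rfl fun j _ => ?_
      rw [smul_smul, mul_comm]
    have h7 : ∑ j, (c j * ((w j : ℂ) - u)) • e j
        = ∑ j, (c j * (w j : ℂ)) • e j - ∑ j, (c j * (u : ℂ)) • e j := by
      rw [← Finset.sum_sub_distrib]
      refine Finset.sum_congr rfl fun j _ => ?_
      rw [mul_sub]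
      exact sub_smul (c j * (w j : ℂ)) (c j * (u : ℂ)) (e j)
    rw [h7, ← h5, ← h6, hv, sub_self]
  intro j hj
  have h5 := Fintype.linearIndependent_iff.1 h2 _ h4 j
  rcases mul_eq_zero.1 h5 with h6 | h6
  · exact h6
  · exfalso
    apply hj
    have := sub_eq_zero.1 h6
    exact_mod_cast this

lemma bdw_cg {p q : Submodule ℂ A} (h : p = q) : Module.finrank ℂ p = Module.finrank ℂ q := by
  subst h; rfl

lemma bdw_fr {n : ℕ} {b : Fin n → A} (hb : LinearIndependent ℂ b) (T : Finset (Fin n)) :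
    Module.finrank ℂ (Submodule.span ℂ (b '' (T : Set (Fin n)))) = T.card := by
  have h1 : LinearIndependent ℂ (b ∘ (Subtype.val : T → Fin n)) :=
    hb.comp _ Subtype.val_injective
  have h2 := finrank_span_eq_card h1
  rw [Fintype.card_coe] at h2
  rw [← h2]
  refine bdw_cg (congrArg (Submodule.span ℂ) ?_)
  ext x
  constructor
  · rintro ⟨j, hj, rfl⟩
    exact ⟨⟨j, hj⟩, rfl⟩
  · rintro ⟨j, rfl⟩
    exact ⟨j, j.2, rfl⟩

end aux

/-- The inequality behind the module. -/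
lemma bdw_core (hEIG : StEIG) (hEGB : StEGB) {A : Type} [CommRing A] [IsDomain A] [Algebra ℂ A]
    {E : ℕ → Submodule ℂ A} {ip : A → A → ℂ} {M Λ : ℕ} {F : ℕ → ℕ → Submodule ℂ A}
    (hS : SG E M) (hH : HF E ip) (hF : FF E Λ F) {ε : ℝ} {i k' : ℕ}
    (hk' : 0 < k') (hik : 3 * k' ≤ i)
    (hdim : ε * (Module.finrank ℂ (E (i + k')) : ℝ) < Module.finrank ℂ (E k'))
    {W : ∀ k, E k →ₗ[ℂ] E k} (hD : DD E W) (hA : SA ip W) (hJ : JD F W (i + k') ε) :
    EB (W 1) (-(2 * ((Λ : ℝ) + 2))) (2 * ((Λ : ℝ) + 2)) := by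
  classical
  obtain ⟨N, b, lam, mu, hb, hlam, hmu, hsum⟩ := hJ
  have := hS.fd
  obtain ⟨e1, w1, -, he1, hli1, hsp1, -⟩ := hEIG A E ip 1 (hS.fd 1) hH W hA
  obtain ⟨e2, w2, -, he2, hli2, hsp2, -⟩ := hEIG A E ip k' (hS.fd k') hH W hA
  obtain ⟨e3, w3, -, he3, hli3, hsp3, hGW3⟩ := hEIG A E ip (i + k') (hS.fd (i + k')) hH W hA
  -- trivial case
  intro v u hv0 hvu
  obtain ⟨c, hc, hc0⟩ := bdw_span (W 1) e1 w1 he1 hli1 hsp1 v u hvu
  obtain ⟨j0, hj0⟩ : ∃ j, c j ≠ 0 := by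
    by_contra hcon
    push Not at hcon
    apply hv0
    rw [← hc]
    simp [hcon]
  have : Nonempty (Fin (Module.finrank ℂ (E 1))) := ⟨j0⟩
  obtain ⟨jp, hjp⟩ := Finite.exists_max w1
  obtain ⟨jm, hjm⟩ := Finite.exists_min w1
  have huw : u = w1 j0 := by
    by_contra hcon
    exact hj0 (hc0 j0 (Ne.symm hcon))
  -- all eigenvalues of `W 1` are between the two extreme ones
  have hEB1 : EB (W 1) (w1 jm) (w1 jp) := by
    intro v u hv0 hvu
    obtain ⟨c, hc, hc0⟩ := bdw_span (W 1) e1 w1 he1 hli1 hsp1 v u hvu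
    obtain ⟨j0, hj0⟩ : ∃ j, c j ≠ 0 := by
      by_contra hcon
      push Not at hcon
      apply hv0
      rw [← hc]
      simp [hcon]
    have huw : w1 j0 = u := by
      by_contra hcon
      exact hj0 (hc0 j0 hcon)
    rw [← huw]
    exact ⟨hjm j0, hjp j0⟩
  have hEBk : EB (W k') (k' * w1 jm) (k' * w1 jp) := hEGB A E ip M hS hH W hD hA _ _ hEB1 k'
  -- powers
  obtain ⟨pp, hpp, hppw⟩ := bdw_pow hS.zero hS.mul hD (e1 jp) (w1 jp) (he1 jp) i
  obtain ⟨pm, hpm, hpmw⟩ := bdw_pow hS.zero hS.mul hD (e1 jm) (w1 jm) (he1 jm) i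
  have hpp0 : (pp : A) ≠ 0 := by
    rw [hpp]
    apply pow_ne_zero
    intro h
    exact hli1.ne_zero jp (Subtype.ext h)
  have hpm0 : (pm : A) ≠ 0 := by
    rw [hpm]
    apply pow_ne_zero
    intro h
    exact hli1.ne_zero jm (Subtype.ext h)
  -- dimension count
  have hN : N = Module.finrank ℂ (E (i + k')) := by
    have h1 := hF.zero (i + k')
    rw [hlam 0] at h1
    have h2 := bdw_fr hb Finset.univ
    have h3 : ({j : Fin N | 0 ≤ lam j} : Set (Fin N)) = ((Finset.univ : Finset (Fin N)) : Set _) := by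
      ext j; simp
    rw [h3] at h1
    have h4 := (bdw_cg h1).symm.trans h2
    rw [h4]
    simp
  obtain ⟨k, hk⟩ : ∃ k : ℕ, k = i + k' := ⟨_, rfl⟩
  have hkpos : 0 < k := by omega
  obtain ⟨Bad, hBad⟩ : ∃ B : Finset (Fin N), B = Finset.univ.filter
    (fun j => (k : ℝ) < |(lam j : ℝ) - mu j|) := ⟨_, rfl⟩
  have hBadcard : (Bad.card : ℝ) < Module.finrank ℂ (E k') := by
    refine lt_of_le_of_lt ?_ hdim
    have h1 : (Bad.card : ℝ) * (k : ℝ) ^ 2 ≤ ε * (k : ℝ) ^ 2 * N := by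
      rw [hk]
      refine le_trans ?_ hsum
      rw [← nsmul_eq_mul, ← Finset.sum_const]
      refine le_trans (Finset.sum_le_sum (g := fun j => ((lam j : ℝ) - mu j) ^ 2) ?_)
        (Finset.sum_le_sum_of_subset_of_nonneg (Finset.subset_univ Bad)
          fun j _ _ => sq_nonneg _)
      intro j hj
      rw [hBad, Finset.mem_filter] at hj
      rw [← sq_abs ((lam j : ℝ) - mu j), ← hk]
      exact pow_le_pow_left₀ (Nat.cast_nonneg _) hj.2.le 2
    have h2 : (0 : ℝ) < (k : ℝ) ^ 2 := by positivity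
    have hNr : (N : ℝ) = (Module.finrank ℂ (E (i + k')) : ℝ) := by rw [← hN]
    rw [hNr] at h1
    have h3 : (Bad.card : ℝ) * (k : ℝ) ^ 2
        ≤ (ε * (Module.finrank ℂ (E (i + k')) : ℝ)) * (k : ℝ) ^ 2 := by
      refine h1.trans (le_of_eq ?_)
      ring
    exact le_of_mul_le_mul_right h3 h2
  have hlamle : ∀ j, (lam j : ℝ) ≤ Λ * k := by
    intro j
    by_contra hcon
    push Not at hcon
    have h1 : Λ * k < lam j := by exact_mod_cast hcon
    rw [hk] at h1
    have h2 := hF.bot (i + k') (lam j) h1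
    rw [hlam] at h2
    have h3 : b j ∈ (⊥ : Submodule ℂ A) := by
      rw [← h2]
      exact Submodule.subset_span ⟨j, le_refl (lam j), rfl⟩
    exact hb.ne_zero j ((Submodule.mem_bot ℂ).1 h3)
  have hgood : ∀ j, j ∉ Bad → -(k : ℝ) ≤ mu j ∧ mu j ≤ (Λ + 1) * k := by
    intro j hj
    rw [hBad, Finset.mem_filter, not_and, not_lt] at hj
    have h1 := abs_le.1 (hj (Finset.mem_univ j))
    have h2 : (0 : ℝ) ≤ lam j := Nat.cast_nonneg _
    have h3 := hlamle j
    constructor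
    · linarith [h1.2]
    · have : ((Λ : ℝ) + 1) * k = Λ * k + k := by ring
      rw [this]
      linarith [h1.1]
  have hfrGW : ∀ y : ℝ, Module.finrank ℂ (GW W (i + k') y)
      = (Finset.univ.filter (fun j => y ≤ mu j)).card := by
    intro y
    rw [← bdw_fr hb]
    have h1 : ({j : Fin N | y ≤ mu j} : Set (Fin N))
        = ((Finset.univ.filter (fun j => y ≤ mu j) : Finset (Fin N)) : Set (Fin N)) := by
      ext j; simp
    refine bdw_cg ?_
    rw [hmu y, h1]
  have hmulL : ∀ c : A, c ≠ 0 → Module.finrank ℂ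
      (Submodule.map (LinearMap.mulLeft ℂ c) (E k')) = Module.finrank ℂ (E k') := by
    intro c hc
    have hinj : Function.Injective (LinearMap.mulLeft ℂ c) := by
      intro x y hxy
      exact mul_left_cancel₀ hc hxy
    exact (LinearEquiv.finrank_eq (Submodule.equivMapOfInjective _ hinj (E k'))).symm
  have hGWle : ∀ y, GW W (i + k') y ≤ E (i + k') := by
    intro y
    refine Submodule.span_le.2 ?_
    rintro f ⟨e, w, -, -, rfl⟩
    exact e.2
  have hspE : ∀ q : E k', ∃ c : Fin (Module.finrank ℂ (E k')) → ℂ, ∑ j, c j • e2 j = q := by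
    intro q
    have hmem : q ∈ Submodule.span ℂ (Set.range e2) := by rw [hsp2]; exact Submodule.mem_top
    exact (Submodule.mem_span_range_iff_exists_fun ℂ).1 hmem
  -- first inequality
  have hI1 : i * w1 jp + k' * w1 jm ≤ (Λ + 1) * k := by
    have hsub : Submodule.map (LinearMap.mulLeft ℂ (pp : A)) (E k')
        ≤ GW W (i + k') (i * w1 jp + k' * w1 jm) := by
      rintro _ ⟨q, hq, rfl⟩
      obtain ⟨c, hc⟩ := hspE ⟨q, hq⟩
      have hq' : q = ∑ j, c j • (e2 j : A) := by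
        have := congrArg (Subtype.val) hc
        simpa using this.symm
      rw [hq', map_sum]
      refine Submodule.sum_mem _ fun j _ => ?_
      rw [map_smul]
      refine Submodule.smul_mem _ _ (Submodule.subset_span ?_)
      refine ⟨⟨pp * e2 j, hS.mul i k' pp (e2 j) pp.2 (e2 j).2⟩, i * w1 jp + w2 j, ?_, ?_, rfl⟩
      · have := (hEBk (e2 j) (w2 j) (hli2.ne_zero j) (he2 j)).1
        linarith
      · exact bdw_mul hD pp (e2 j) _ _ hppw (he2 j) _ rfl
    have h1 : Module.finrank ℂ (E k') ≤ (Finset.univ.filter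
        (fun j => i * w1 jp + k' * w1 jm ≤ mu j)).card := by
      rw [← hfrGW, ← hmulL (pp : A) hpp0]
      have : FiniteDimensional ℂ (GW W (i + k') (i * w1 jp + k' * w1 jm)) :=
        Submodule.finiteDimensional_of_le (hGWle _)
      exact Submodule.finrank_mono hsub
    have h2 : Bad.card < (Finset.univ.filter
        (fun j => i * w1 jp + k' * w1 jm ≤ mu j)).card := by
      have : (Bad.card : ℝ) < ((Finset.univ.filter
        (fun j => i * w1 jp + k' * w1 jm ≤ mu j)).card : ℝ) :=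
        hBadcard.trans_le (by exact_mod_cast h1)
      exact_mod_cast this
    obtain ⟨j, hj1, hj2⟩ := Finset.exists_mem_notMem_of_card_lt_card h2
    exact (Finset.mem_filter.1 hj1).2.trans (hgood j hj2).2
  -- second inequality
  have hI2 : -(k : ℝ) ≤ i * w1 jm + k' * w1 jp := by
    by_contra hcon
    push Not at hcon
    have hsub : Submodule.map (LinearMap.mulLeft ℂ (pm : A)) (E k')
        ≤ Submodule.span ℂ ((fun j => (e3 j : A)) '' {j | w3 j ≤ i * w1 jm + k' * w1 jp}) := by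
      rintro _ ⟨q, hq, rfl⟩
      obtain ⟨c, hc⟩ := hspE ⟨q, hq⟩
      have hq' : q = ∑ j, c j • (e2 j : A) := by
        have := congrArg (Subtype.val) hc
        simpa using this.symm
      rw [hq', map_sum]
      refine Submodule.sum_mem _ fun j _ => ?_
      rw [map_smul]
      refine Submodule.smul_mem _ _ ?_
      have h1 := bdw_mul hD pm (e2 j) _ _ hpmw (he2 j)
        ⟨pm * e2 j, hS.mul i k' pm (e2 j) pm.2 (e2 j).2⟩ rfl
      obtain ⟨d, hd, hd0⟩ := bdw_span (W (i + k')) e3 w3 he3 hli3 hsp3 _ _ h1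
      have h2 : (LinearMap.mulLeft ℂ (pm : A)) (e2 j : A) = ∑ l, d l • (e3 l : A) := by
        have := congrArg (Subtype.val) hd
        simpa using this.symm
      rw [h2]
      refine Submodule.sum_mem _ fun l _ => ?_
      by_cases hl : w3 l = i * w1 jm + w2 j
      · refine Submodule.smul_mem _ _ (Submodule.subset_span ⟨l, ?_, rfl⟩)
        have := (hEBk (e2 j) (w2 j) (hli2.ne_zero j) (he2 j)).2
        change w3 l ≤ _
        rw [hl]
        linarith
      · rw [hd0 l hl, zero_smul]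
        exact Submodule.zero_mem _
    have hli3' : LinearIndependent ℂ (fun j => (e3 j : A)) :=
      hli3.map' (E (i + k')).subtype (Submodule.ker_subtype _)
    have hdisj : Disjoint (Submodule.map (LinearMap.mulLeft ℂ (pm : A)) (E k'))
        (GW W (i + k') (-(k : ℝ))) := by
      rw [hGW3]
      refine Disjoint.mono_left hsub (hli3'.disjoint_span_image ?_)
      rw [Set.disjoint_left]
      intro j hj1 hj2
      simp only [Set.mem_ofPred_eq] at hj1 hj2
      linarith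
    have hfd1 : FiniteDimensional ℂ (Submodule.map (LinearMap.mulLeft ℂ (pm : A)) (E k')) := by
      infer_instance
    have hfd2 : FiniteDimensional ℂ (GW W (i + k') (-(k : ℝ))) :=
      Submodule.finiteDimensional_of_le (hGWle _)
    have hle1 : Submodule.map (LinearMap.mulLeft ℂ (pm : A)) (E k') ≤ E (i + k') := by
      rintro _ ⟨q, hq, rfl⟩
      exact hS.mul i k' pm q pm.2 hq
    have h1 := Submodule.finrank_sup_add_finrank_inf_eq
      (Submodule.map (LinearMap.mulLeft ℂ (pm : A)) (E k')) (GW W (i + k') (-(k : ℝ)))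
    rw [hdisj.eq_bot, finrank_bot, add_zero, hmulL (pm : A) hpm0, hfrGW] at h1
    have h2 : Module.finrank ℂ ((Submodule.map (LinearMap.mulLeft ℂ (pm : A)) (E k') ⊔
        GW W (i + k') (-(k : ℝ)) : Submodule ℂ A)) ≤ Module.finrank ℂ (E (i + k')) :=
      Submodule.finrank_mono (sup_le hle1 (hGWle _))
    have h3 : N ≤ Bad.card + (Finset.univ.filter (fun j => -(k : ℝ) ≤ mu j)).card := by
      have h4 : (Finset.univ : Finset (Fin N))
          ⊆ Bad ∪ Finset.univ.filter (fun j => -(k : ℝ) ≤ mu j) := by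
        intro j _
        by_cases hj : j ∈ Bad
        · exact Finset.mem_union_left _ hj
        · exact Finset.mem_union_right _ (Finset.mem_filter.2 ⟨Finset.mem_univ _, (hgood j hj).1⟩)
      have h5 := (Finset.card_le_card h4).trans (Finset.card_union_le _ _)
      simpa using h5
    have h4 : Bad.card < Module.finrank ℂ (E k') := by exact_mod_cast hBadcard
    omega
  -- conclusion
  have hkr : (k : ℝ) = i + k' := by rw [hk]; push_cast; ring
  have hik' : (3 : ℝ) * k' ≤ i := by exact_mod_cast hik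
  have hk'r : (0 : ℝ) < k' := by exact_mod_cast hk'
  have hkr0 : (0 : ℝ) < k := by exact_mod_cast hkpos
  have hL0 : (0 : ℝ) ≤ Λ := Nat.cast_nonneg _
  have hD0 : 0 ≤ w1 jp - w1 jm := sub_nonneg.2 (hjm jp)
  have hdiff : w1 jp - w1 jm ≤ 2 * (Λ + 2) := by
    have h1 : ((i : ℝ) - k') * (w1 jp - w1 jm) ≤ (Λ + 2) * k := by
      have e1 : ((i : ℝ) - k') * (w1 jp - w1 jm)
        = (i * w1 jp + k' * w1 jm) - (i * w1 jm + k' * w1 jp) := by ring
      rw [e1]
      have e2 : ((Λ : ℝ) + 2) * k = (Λ + 1) * k + k := by ring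
      rw [e2]
      linarith
    have h2 : (k : ℝ) / 2 ≤ (i : ℝ) - k' := by linarith
    have h3 : (k : ℝ) / 2 * (w1 jp - w1 jm) ≤ (Λ + 2) * k :=
      (mul_le_mul_of_nonneg_right h2 hD0).trans h1
    have h4 : (k : ℝ) * (w1 jp - w1 jm) ≤ k * (2 * (Λ + 2)) := by linarith
    exact le_of_mul_le_mul_left h4 hkr0
  have hk4 : (4 : ℝ) * k' ≤ k := by linarith
  have hprod : (k' : ℝ) * (w1 jp - w1 jm) ≤ k * (Λ + 2) := by
    have h1 : (k' : ℝ) * (w1 jp - w1 jm) ≤ k' * (2 * (Λ + 2)) :=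
      mul_le_mul_of_nonneg_left hdiff hk'r.le
    have h2 : (k' : ℝ) * (2 * (Λ + 2)) ≤ k * (Λ + 2) := by
      have h3 : (2 * (k' : ℝ)) * (Λ + 2) ≤ k * (Λ + 2) :=
        mul_le_mul_of_nonneg_right (by linarith) (by linarith)
      linarith
    exact h1.trans h2
  have hup : w1 jp ≤ 2 * (Λ + 2) := by
    have h1 : (k : ℝ) * w1 jp ≤ k * (2 * (Λ + 2)) := by
      have e1 : (k : ℝ) * w1 jp = (i * w1 jp + k' * w1 jm) + k' * (w1 jp - w1 jm) := by
        rw [hkr]; ring
      rw [e1]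
      have e2 : (k : ℝ) * (2 * (Λ + 2)) = (Λ + 1) * k + k * (Λ + 2) + k := by ring
      rw [e2]
      linarith
    exact le_of_mul_le_mul_left h1 hkr0
  have hdn : -(2 * ((Λ : ℝ) + 2)) ≤ w1 jm := by
    have h1 : (k : ℝ) * (-(2 * ((Λ : ℝ) + 2))) ≤ k * w1 jm := by
      have e1 : (k : ℝ) * w1 jm = (i * w1 jm + k' * w1 jp) - k' * (w1 jp - w1 jm) := by
        rw [hkr]; ring
      rw [e1]
      have e2 : (k : ℝ) * (-(2 * ((Λ : ℝ) + 2))) = -(k : ℝ) - k * (Λ + 2) - k * (Λ + 1) := by ring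
      rw [e2]
      have e3 : 0 ≤ (k : ℝ) * (Λ + 1) := by positivity
      linarith
    exact le_of_mul_le_mul_left h1 hkr0
  rw [huw]
  exact ⟨hdn.trans (hjm j0), (hjp j0).trans hup⟩

/-- Module BDW. -/
theorem hBDW (hEIG : StEIG) (hEGB : StEGB) : StBDW := by
  intro A _ _ _ E ip M Λ F hS hH hF
  obtain ⟨a, ha, hlim⟩ := hS.grow
  have hpos : (0 : ℝ) < (5 : ℝ) ^ M := by positivity
  refine ⟨1 / (2 * 5 ^ M), 2 * ((Λ : ℝ) + 2), ?_⟩
  have hlo : ∀ᶠ k : ℕ in atTop, (3 / 4) * a < (Module.finrank ℂ (E k) : ℝ) / (k : ℝ) ^ M :=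
    (tendsto_order.1 hlim).1 _ (by linarith)
  have hhi : ∀ᶠ k : ℕ in atTop, (Module.finrank ℂ (E k) : ℝ) / (k : ℝ) ^ M < (5 / 4) * a :=
    (tendsto_order.1 hlim).2 _ (by linarith)
  obtain ⟨n₁, hn₁⟩ := eventually_atTop.1 hlo
  obtain ⟨n₂, hn₂⟩ := eventually_atTop.1 hhi
  refine ⟨4 * n₁ + n₂ + 20, by positivity, ?_⟩
  intro k hk W hD hA hJ
  obtain ⟨k', hk'⟩ : ∃ k', k' = k / 4 := ⟨_, rfl⟩
  obtain ⟨i, hi⟩ : ∃ i, k = i + k' := ⟨k - k', by omega⟩
  have h5 : k ≤ 5 * k' := by omega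
  have hk'pos : 0 < k' := by omega
  have h1 := hn₁ k' (by omega)
  have h2 := hn₂ k (by omega)
  have hkM : (0 : ℝ) < (k : ℝ) ^ M := by
    have : (0 : ℝ) < k := by exact_mod_cast (by omega : 0 < k)
    positivity
  have hk'M : (0 : ℝ) < (k' : ℝ) ^ M := by
    have : (0 : ℝ) < k' := by exact_mod_cast hk'pos
    positivity
  rw [lt_div_iff₀ hk'M] at h1
  rw [div_lt_iff₀ hkM] at h2
  have h3 : (k : ℝ) ^ M ≤ 5 ^ M * (k' : ℝ) ^ M := by
    rw [← mul_pow]
    exact pow_le_pow_left₀ (Nat.cast_nonneg _) (by exact_mod_cast h5) M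
  subst hi
  refine bdw_core hEIG hEGB hS hH hF hk'pos (by omega) ?_ hD hA hJ
  rw [div_mul_eq_mul_div, one_mul, div_lt_iff₀ (by positivity)]
  have h4 : (Module.finrank ℂ (E (i + k')) : ℝ) < 5 / 4 * a * (5 ^ M * (k' : ℝ) ^ M) :=
    h2.trans_le (mul_le_mul_of_nonneg_left h3 (by positivity))
  have h6 : 3 / 4 * a * (k' : ℝ) ^ M * (2 * 5 ^ M) ≤ Module.finrank ℂ (E k') * (2 * 5 ^ M) :=
    mul_le_mul_of_nonneg_right h1.le (by positivity)
  refine lt_of_lt_of_le h4 (le_trans ?_ h6)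
  have h7 : (0 : ℝ) ≤ a * (5 ^ M * (k' : ℝ) ^ M) := by positivity
  linarith

end Pool.Agent.Helper91.KP
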